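import Mathlib

set_option autoImplicit false

/-!
# Measures of the weak Banach–Saks property: `wbs(A) < 2 swu(A)` can happen
-/

namespace Pool.Agent.Results.MP_b2e8e7_an.SchreierCounterexample

open Filter Topology Set
open scoped ENNReal

section defs

variable {X : Type} [NormedAddCommGroup X] [NormedSpace ℝ X]

/-- `x_k → l` weakly. -/
def WeaklyTo (x : ℕ → X) (l : X) : Prop :=
  ∀ f : StrongDual ℝ X, Tendsto (fun k => f (x k)) atTop (𝓝 (f l))

/-- `ca(x_k) = inf_n sup {‖x_k - x_l‖ : k, l ≥ n}`. -/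
noncomputable def ca (x : ℕ → X) : ℝ :=
  ⨅ n : ℕ, sSup {r : ℝ | ∃ k l, n ≤ k ∧ n ≤ l ∧ r = ‖x k - x l‖}

/-- The Cesàro means; the term with index `k` is the mean of the first `k + 1` terms. -/
noncomputable def means (x : ℕ → X) (k : ℕ) : X :=
  ((k : ℝ) + 1)⁻¹ • ∑ i ∈ Finset.range (k + 1), x i

/-- `cca(x_k)`. -/
noncomputable def cca (x : ℕ → X) : ℝ := ca (means x)

/-- The infimum of `cca` over all subsequences. -/
noncomputable def ccaTilde (x : ℕ → X) : ℝ :=
  sInf {r : ℝ | ∃ φ : ℕ → ℕ, StrictMono φ ∧ r = cca (x ∘ φ)}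

/-- `wu(x_k)`, where `l` is the weak limit of `(x_k)`. -/
noncomputable def wu (x : ℕ → X) (l : X) : ℝ :=
  sInf {ε : ℝ | 0 < ε ∧ ∃ n : ℕ, ∀ f : StrongDual ℝ X, ‖f‖ ≤ 1 →
    {k : ℕ | ε < |f (x k - l)|}.encard ≤ n}

/-- The infimum of `wu` over all subsequences. -/
noncomputable def wuTilde (x : ℕ → X) (l : X) : ℝ :=
  sInf {r : ℝ | ∃ φ : ℕ → ℕ, StrictMono φ ∧ r = wu (x ∘ φ) l}

/-- `wbs(A)`. -/
noncomputable def wbs (A : Set X) : ℝ :=
  sSup {r : ℝ | ∃ (x : ℕ → X) (l : X), (∀ k, x k ∈ A) ∧ WeaklyTo x l ∧ r = ccaTilde x}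

/-- `swu(A)`. -/
noncomputable def swu (A : Set X) : ℝ :=
  sSup {r : ℝ | ∃ (x : ℕ → X) (l : X), (∀ k, x k ∈ A) ∧ WeaklyTo x l ∧ r = wuTilde x l}

end defs

/-- The Schreier family. -/
def Sch : Type := {F : Finset ℕ // ∀ n ∈ F, F.card ≤ n + 1}

/-- The space `ℓ_∞` over the Schreier family. -/
abbrev X : Type := lp (fun _ : Sch => ℝ) ∞

/-- The function `F ↦ 1` if `n ∈ F`, `F ↦ 0` otherwise. -/
noncomputable def u (n : ℕ) : X :=
  ⟨fun F => if n ∈ F.1 then 1 else 0, memℓp_infty ⟨1, by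
    rintro _ ⟨F, rfl⟩
    simp only
    split_ifs <;> simp⟩⟩

theorem u_apply (n : ℕ) (F : Sch) : u n F = if n ∈ F.1 then 1 else 0 := rfl

/-- Convex combinations take values in `[0,1]`. -/
theorem comb_apply (s : Finset ℕ) (c : ℕ → ℝ) (m : ℕ → ℕ) (F : Sch) :
    (∑ i ∈ s, c i • u (m i) : X) F = ∑ i ∈ s, if m i ∈ F.1 then c i else 0 := by
  rw [lp.coeFn_sum, Finset.sum_apply]
  refine Finset.sum_congr rfl fun i _ => ?_
  change c i * u (m i) F = _
  rw [u_apply]
  split_ifs <;> simp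

theorem norm_u_le (n : ℕ) : ‖u n‖ ≤ 1 :=
  lp.norm_le_of_forall_le zero_le_one fun F => by
    rw [u_apply]
    split_ifs <;> simp

/-- The evaluation at `F`. -/
noncomputable def ev (F : Sch) : StrongDual ℝ X :=
  LinearMap.mkContinuous
    { toFun := fun x => x F
      map_add' := fun x y => rfl
      map_smul' := fun c x => rfl } 1 (fun x => by
    rw [one_mul]
    exact lp.norm_apply_le_norm ENNReal.top_ne_zero x F)

theorem norm_ev_le (F : Sch) : ‖ev F‖ ≤ 1 := LinearMap.mkContinuous_norm_le _ zero_le_one _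

theorem ev_apply (F : Sch) (x : X) : ev F x = x F := rfl

/-! ### The sequence `u` is weakly null -/

/-- In an infinite set of indices there is a sequence of finite sets whose sizes grow fast. -/
theorem exists_groups {M : Set ℕ} (hM : M.Infinite) (N : ℕ) (hN : 1 ≤ N) :
    ∃ G : ℕ → Finset ℕ, (∀ j, ↑(G j) ⊆ M) ∧ (∀ j, (G j).Nonempty) ∧
      ∀ i j, i < j → ∀ a ∈ G i, N * (a + 1) ≤ (G j).card := by
  obtain ⟨G, hG1, hG2⟩ := exists_seq_of_forall_finset_exists
    (fun G : Finset ℕ => ↑G ⊆ M ∧ G.Nonempty) (fun G H => ∀ a ∈ G, N * (a + 1) ≤ H.card) (by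
      intro s _
      obtain ⟨H, hHM, hH⟩ := hM.exists_subset_card_eq
        (N * ((s.sup fun G => G.sup id) + 1))
      refine ⟨H, ⟨hHM, ?_⟩, fun G hG a ha => ?_⟩
      · rw [← Finset.card_pos, hH]
        positivity
      · rw [hH]
        have h1 : a ≤ G.sup id := Finset.le_sup (f := id) ha
        have h2 : G.sup id ≤ s.sup fun G => G.sup id := Finset.le_sup (f := fun G => G.sup id) hG
        exact Nat.mul_le_mul_left _ (by omega))
  exact ⟨G, fun j => (hG1 j).1, fun j => (hG1 j).2, hG2⟩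

/-- An infinite set of indices contains convex combinations with small norm. -/
theorem exists_small {M : Set ℕ} (hM : M.Infinite) {f : StrongDual ℝ X} {ε : ℝ}
    (hf : ∀ n ∈ M, ε ≤ f (u n)) (N : ℕ) (hN : 1 ≤ N) : ε ≤ ‖f‖ * (2 / N) := by
  obtain ⟨G, hGM, hGne, hG⟩ := exists_groups hM N hN
  have hN0 : (0 : ℝ) < N := by exact_mod_cast hN
  have hcard : ∀ j, (0 : ℝ) < (G j).card := fun j => by
    exact_mod_cast Finset.card_pos.2 (hGne j)
  let v : X := ∑ j ∈ Finset.range N, (N : ℝ)⁻¹ • ∑ n ∈ G j, ((G j).card : ℝ)⁻¹ • u n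
  have h1 : ε ≤ f v := by
    have h2 : ∀ j, ε ≤ ∑ n ∈ G j, ((G j).card : ℝ)⁻¹ * f (u n) := by
      intro j
      calc ε = ∑ n ∈ G j, ((G j).card : ℝ)⁻¹ * ε := by
            rw [Finset.sum_const, nsmul_eq_mul, mul_inv_cancel_left₀ (hcard j).ne']
        _ ≤ _ := Finset.sum_le_sum fun n hn =>
            mul_le_mul_of_nonneg_left (hf n (hGM j hn)) (inv_nonneg.2 (hcard j).le)
    have h3 : f v = ∑ j ∈ Finset.range N, (N : ℝ)⁻¹ * ∑ n ∈ G j, ((G j).card : ℝ)⁻¹ * f (u n) := by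
      simp only [v, map_sum, map_smul, smul_eq_mul]
    rw [h3]
    calc ε = ∑ j ∈ Finset.range N, (N : ℝ)⁻¹ * ε := by
          rw [Finset.sum_const, nsmul_eq_mul, Finset.card_range, mul_inv_cancel_left₀ hN0.ne']
      _ ≤ _ := Finset.sum_le_sum fun j _ => mul_le_mul_of_nonneg_left (h2 j) (inv_nonneg.2 hN0.le)
  have h2 : ‖v‖ ≤ 2 / N := by
    refine lp.norm_le_of_forall_le (by positivity) fun F => ?_
    have h3 : v F = ∑ j ∈ Finset.range N, (N : ℝ)⁻¹ *
        (((G j).card : ℝ)⁻¹ * ((F.1 ∩ G j).card : ℝ)) := by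
      simp only [v]
      rw [lp.coeFn_sum, Finset.sum_apply]
      refine Finset.sum_congr rfl fun j _ => ?_
      have h4 : (∑ n ∈ G j, ((G j).card : ℝ)⁻¹ • u n : X) F =
          ((G j).card : ℝ)⁻¹ * ((F.1 ∩ G j).card : ℝ) := by
        refine (comb_apply (G j) (fun _ => ((G j).card : ℝ)⁻¹) (fun n => n) F).trans ?_
        rw [← Finset.sum_filter, Finset.sum_const, nsmul_eq_mul, mul_comm]
        have : Finset.filter (fun i => i ∈ F.1) (G j) = F.1 ∩ G j := by
          ext n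
          simp [and_comm]
        rw [this]
      exact congrArg (fun r => (N : ℝ)⁻¹ * r) h4
    rw [h3, Real.norm_of_nonneg (Finset.sum_nonneg fun j _ => by positivity), ← Finset.mul_sum,
      inv_mul_eq_div]
    refine div_le_div_of_nonneg_right ?_ hN0.le
    -- the first group that meets `F` contributes at most one, the others at most `1/N`
    by_cases hne : ∃ j, j < N ∧ (F.1 ∩ G j).Nonempty
    · classical
      let j₀ := Nat.find hne
      obtain ⟨hj₀, ⟨a, ha⟩⟩ : j₀ < N ∧ (F.1 ∩ G j₀).Nonempty := Nat.find_spec hne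
      rw [Finset.mem_inter] at ha
      have hterm : ∀ j ∈ Finset.range N, ((G j).card : ℝ)⁻¹ * ((F.1 ∩ G j).card : ℝ) ≤
          (if j = j₀ then 1 else 0) + (N : ℝ)⁻¹ := by
        intro j hj
        rcases lt_trichotomy j j₀ with hlt | rfl | hlt
        · have : ¬ (F.1 ∩ G j).Nonempty := fun h =>
            Nat.find_min hne hlt ⟨Finset.mem_range.1 hj, h⟩
          rw [Finset.not_nonempty_iff_eq_empty] at this
          rw [this, Finset.card_empty, Nat.cast_zero, mul_zero, if_neg hlt.ne, zero_add]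
          exact inv_nonneg.2 hN0.le
        · rw [if_pos rfl]
          have h4 : ((F.1 ∩ G j₀).card : ℝ) ≤ (G j₀).card := by
            exact_mod_cast Finset.card_le_card Finset.inter_subset_right
          have h5 : ((G j₀).card : ℝ)⁻¹ * ((F.1 ∩ G j₀).card : ℝ) ≤ 1 := by
            rw [inv_mul_le_iff₀ (hcard j₀), mul_one]
            exact h4
          have := inv_nonneg.2 hN0.le
          linarith
        · rw [if_neg hlt.ne', zero_add, inv_mul_le_iff₀ (hcard j), ← div_eq_mul_inv,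
            le_div_iff₀ hN0]
          have h4 : (F.1 ∩ G j).card ≤ a + 1 :=
            (Finset.card_le_card Finset.inter_subset_left).trans (F.2 a ha.1)
          have h5 := hG j₀ j hlt a ha.2
          have h6 : (F.1 ∩ G j).card * N ≤ (G j).card := by nlinarith
          exact_mod_cast h6
      refine (Finset.sum_le_sum hterm).trans ?_
      rw [Finset.sum_add_distrib, Finset.sum_ite_eq', if_pos (Finset.mem_range.2 hj₀),
        Finset.sum_const, nsmul_eq_mul, Finset.card_range, mul_inv_cancel₀ hN0.ne']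
      norm_num
    · push Not at hne
      rw [Finset.sum_eq_zero fun j hj => by
        rw [hne j (Finset.mem_range.1 hj), Finset.card_empty, Nat.cast_zero, mul_zero]]
      norm_num
  calc ε ≤ f v := h1
    _ ≤ ‖f v‖ := Real.le_norm_self _
    _ ≤ ‖f‖ * ‖v‖ := f.le_opNorm v
    _ ≤ _ := mul_le_mul_of_nonneg_left h2 (norm_nonneg _)

theorem eventually_lt (f : StrongDual ℝ X) {ε : ℝ} (hε : 0 < ε) :
    ∀ᶠ n in atTop, f (u n) < ε := by
  by_contra h
  rw [Filter.not_eventually] at h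
  have hM : {n : ℕ | ε ≤ f (u n)}.Infinite := by
    rw [← Nat.frequently_atTop_iff_infinite]
    exact h.mono fun n hn => not_lt.1 hn
  obtain ⟨N, hN⟩ := exists_nat_gt (2 * ‖f‖ / ε)
  have hN1 : 1 ≤ N := by
    by_contra h0
    have : N = 0 := by omega
    rw [this, Nat.cast_zero] at hN
    exact absurd hN (not_lt.2 (by positivity))
  have hN0 : (0 : ℝ) < N := by exact_mod_cast hN1
  have h1 := exists_small hM (fun n hn => hn) N hN1
  rw [div_lt_iff₀ hε] at hN
  rw [mul_div_assoc', le_div_iff₀ hN0] at h1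
  linarith

theorem weaklyNull : WeaklyTo u 0 := by
  intro f
  rw [map_zero, Metric.tendsto_atTop']
  intro ε hε
  obtain ⟨N, hN⟩ := eventually_atTop.1 ((eventually_lt f hε).and (eventually_lt (-f) hε))
  refine ⟨N, fun n hn => ?_⟩
  obtain ⟨h1, h2⟩ := hN n hn.le
  rw [Real.dist_eq, sub_zero, abs_lt]
  rw [neg_apply] at h2
  exact ⟨by linarith, h1⟩

/-! ### The two quantities -/

theorem means_apply (m : ℕ → ℕ) (k : ℕ) (F : Sch) :
    0 ≤ means (fun i => u (m i)) k F ∧ means (fun i => u (m i)) k F ≤ 1 := by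
  have h1 : means (fun i => u (m i)) k =
      ∑ i ∈ Finset.range (k + 1), ((k : ℝ) + 1)⁻¹ • u (m i) := by
    rw [means, Finset.smul_sum]
  have hk : (0 : ℝ) < (k : ℝ) + 1 := by positivity
  rw [h1, comb_apply (Finset.range (k + 1)) (fun _ => ((k : ℝ) + 1)⁻¹) m F]
  constructor
  · exact Finset.sum_nonneg fun i _ => by split_ifs <;> positivity
  · refine (Finset.sum_le_sum (g := fun _ => ((k : ℝ) + 1)⁻¹) fun i _ => ?_).trans ?_
    · split_ifs
      · exact le_rfl
      · positivity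
    · rw [Finset.sum_const, Finset.card_range, nsmul_eq_mul]
      push_cast
      rw [mul_inv_cancel₀ hk.ne']

theorem cca_le (m : ℕ → ℕ) : cca (fun i => u (m i)) ≤ 1 := by
  unfold cca ca
  have hb : ∀ k l, ‖means (fun i => u (m i)) k - means (fun i => u (m i)) l‖ ≤ 1 := by
    intro k l
    refine lp.norm_le_of_forall_le zero_le_one fun F => ?_
    rw [lp.coeFn_sub, Pi.sub_apply, Real.norm_eq_abs, abs_le]
    have h1 := means_apply m k F
    have h2 := means_apply m l F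
    constructor <;> linarith [h1.1, h1.2, h2.1, h2.2]
  refine (ciInf_le ⟨0, ?_⟩ 0).trans ?_
  · rintro _ ⟨n, rfl⟩
    refine Real.sSup_nonneg ?_
    rintro _ ⟨k, l, _, _, rfl⟩
    exact norm_nonneg _
  · refine Real.sSup_le ?_ zero_le_one
    rintro _ ⟨k, l, _, _, rfl⟩
    exact hb k l

theorem cca_nonneg {Y : Type} [NormedAddCommGroup Y] [NormedSpace ℝ Y] (x : ℕ → Y) :
    0 ≤ cca x := by
  unfold cca ca
  refine Real.iInf_nonneg fun n => Real.sSup_nonneg ?_
  rintro _ ⟨k, l, _, _, rfl⟩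
  exact norm_nonneg _

theorem wbs_le : wbs (Set.range u) ≤ 1 := by
  refine Real.sSup_le ?_ zero_le_one
  rintro _ ⟨x, l, hx, -, rfl⟩
  choose m hm using hx
  have hxm : x = fun i => u (m i) := funext fun i => (hm i).symm
  unfold ccaTilde
  refine le_trans (csInf_le (a := cca (x ∘ id)) ⟨0, ?_⟩ ⟨id, strictMono_id, rfl⟩) ?_
  · rintro _ ⟨φ, -, rfl⟩
    exact cca_nonneg _
  · rw [hxm]
    exact cca_le m

theorem one_le_wu {φ : ℕ → ℕ} (hφ : StrictMono φ) : 1 ≤ wu (u ∘ φ) 0 := by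
  refine le_csInf ⟨1, one_pos, 0, fun f hf => ?_⟩ ?_
  · have : {k : ℕ | (1 : ℝ) < |f ((u ∘ φ) k - 0)|} = ∅ := by
      ext k
      simp only [Set.mem_ofPred_eq, Set.mem_empty_iff_false, iff_false, not_lt, sub_zero]
      calc |f ((u ∘ φ) k)| ≤ ‖f‖ * ‖u (φ k)‖ := f.le_opNorm _
        _ ≤ 1 * 1 := mul_le_mul hf (norm_u_le _) (norm_nonneg _) zero_le_one
        _ = 1 := one_mul 1
    rw [this]
    simp
  · rintro ε ⟨-, n, hn⟩
    by_contra hε
    push Not at hε
    -- a Schreier set of size `n + 1`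
    let F₀ : Finset ℕ := (Finset.Icc n (2 * n)).image φ
    have hcard : F₀.card = n + 1 := by
      rw [Finset.card_image_of_injective _ hφ.injective, Nat.card_Icc]
      omega
    have hF : ∀ a ∈ F₀, F₀.card ≤ a + 1 := by
      intro a ha
      obtain ⟨k, hk, rfl⟩ := Finset.mem_image.1 ha
      rw [Finset.mem_Icc] at hk
      rw [hcard]
      have := hφ.id_le k
      simp only [id] at this
      omega
    have h1 := hn (ev ⟨F₀, hF⟩) (norm_ev_le _)
    have h2 : ↑(Finset.Icc n (2 * n)) ⊆ {k : ℕ | ε < |ev ⟨F₀, hF⟩ ((u ∘ φ) k - 0)|} := by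
      intro k hk
      have hmem : φ k ∈ F₀ := Finset.mem_image_of_mem _ hk
      simp only [Set.mem_ofPred_eq, sub_zero, Function.comp, ev_apply, u_apply]
      rw [if_pos hmem, abs_one]
      exact hε
    have h3 := (Set.encard_le_encard h2).trans h1
    rw [Set.encard_coe_eq_coe_finsetCard, Nat.card_Icc] at h3
    have h4 : 2 * n + 1 - n ≤ n := by exact_mod_cast h3
    omega

theorem wu_le {Y : Type} [NormedAddCommGroup Y] [NormedSpace ℝ Y] {x : ℕ → Y} {l : Y} {C : ℝ}
    (hC : 0 < C) (h : ∀ k, ‖x k - l‖ ≤ C) : wu x l ≤ C := by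
  refine csInf_le ⟨0, fun ε hε => hε.1.le⟩ ⟨hC, 0, fun f hf => ?_⟩
  have : {k : ℕ | C < |f (x k - l)|} = ∅ := by
    ext k
    simp only [Set.mem_ofPred_eq, Set.mem_empty_iff_false, iff_false, not_lt]
    calc |f (x k - l)| ≤ ‖f‖ * ‖x k - l‖ := f.le_opNorm _
      _ ≤ 1 * C := mul_le_mul hf (h k) (norm_nonneg _) zero_le_one
      _ = C := one_mul C
  rw [this]
  simp

theorem wu_nonneg {Y : Type} [NormedAddCommGroup Y] [NormedSpace ℝ Y] (x : ℕ → Y) (l : Y) :
    0 ≤ wu x l := Real.sInf_nonneg fun _ hε => hε.1.le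

theorem one_le_swu : 1 ≤ swu (Set.range u) := by
  have h1 : 1 ≤ wuTilde u 0 := by
    refine le_csInf ⟨_, id, strictMono_id, rfl⟩ ?_
    rintro _ ⟨φ, hφ, rfl⟩
    exact one_le_wu hφ
  refine h1.trans (le_csSup ⟨2, ?_⟩ ⟨u, 0, fun k => ⟨k, rfl⟩, weaklyNull, rfl⟩)
  rintro _ ⟨x, l, hx, hxl, rfl⟩
  have hxn : ∀ k, ‖x k‖ ≤ 1 := by
    intro k
    obtain ⟨m, hm⟩ := hx k
    rw [← hm]
    exact norm_u_le m
  have hl : ‖l‖ ≤ 1 := by
    refine NormedSpace.norm_le_dual_bound ℝ l zero_le_one fun f => ?_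
    rw [one_mul]
    refine le_of_tendsto (hxl f).norm (Eventually.of_forall fun k => ?_)
    exact (f.le_opNorm _).trans (mul_le_of_le_one_right (norm_nonneg _) (hxn k))
  unfold wuTilde
  refine le_trans (csInf_le (a := wu (x ∘ id) l) ⟨0, ?_⟩ ⟨id, strictMono_id, rfl⟩) ?_
  · rintro _ ⟨φ, -, rfl⟩
    exact wu_nonneg _ _
  · refine wu_le two_pos fun k => (norm_sub_le _ _).trans ?_
    have := hxn k
    simp only [Function.comp, id]
    linarith

/-- There are a real Banach space `X` and a bounded set `A ⊆ X` with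
`wbs(A) ≤ 1 < 2 ≤ 2 swu(A)`. -/
theorem result : ∃ (X : Type) (_ : NormedAddCommGroup X) (_ : NormedSpace ℝ X) (A : Set X),
    CompleteSpace X ∧ Bornology.IsBounded A ∧ wbs A ≤ 1 ∧ 1 ≤ swu A ∧ wbs A < 2 * swu A := by
  refine ⟨X, inferInstance, inferInstance, Set.range u, inferInstance, ?_, wbs_le, one_le_swu,
    ?_⟩
  · rw [isBounded_iff_forall_norm_le]
    refine ⟨1, ?_⟩
    rintro _ ⟨n, rfl⟩
    exact norm_u_le n
  · have h1 := wbs_le
    have h2 := one_le_swu
    linarith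

end Pool.Agent.Results.MP_b2e8e7_an.SchreierCounterexample
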